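import Pool.Agent.Q19.HO.Stm

/-!
Job HO-SCH: linear maps of the imaginary octonions commuting with all commutators are scalar.
-/

set_option autoImplicit false

namespace Pool.Agent.Q160.HO.SCH

open Pool.Agent.Q19.HO

variable {K : Type} [Field K]

/-- octonion with given coordinates -/
def v (a b c d e f g h : K) : Oct K := ![a, b, c, d, e, f, g, h]

lemma v0 (a b c d e f g h : K) : (v a b c d e f g h) 0 = a := rfl
lemma v1 (a b c d e f g h : K) : (v a b c d e f g h) 1 = b := rfl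
lemma v2 (a b c d e f g h : K) : (v a b c d e f g h) 2 = c := rfl
lemma v3 (a b c d e f g h : K) : (v a b c d e f g h) 3 = d := rfl
lemma v4 (a b c d e f g h : K) : (v a b c d e f g h) 4 = e := rfl
lemma v5 (a b c d e f g h : K) : (v a b c d e f g h) 5 = f := rfl
lemma v6 (a b c d e f g h : K) : (v a b c d e f g h) 6 = g := rfl
lemma v7 (a b c d e f g h : K) : (v a b c d e f g h) 7 = h := rfl

lemma v_eta (x : Oct K) : x = v (x 0) (x 1) (x 2) (x 3) (x 4) (x 5) (x 6) (x 7) := oct_ext fun i => by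
  fin_cases i <;> rfl

lemma com_v (a b c d e f g h a' b' c' d' e' f' g' h' : K) :
    v a b c d e f g h * v a' b' c' d' e' f' g' h' - v a' b' c' d' e' f' g' h' * v a b c d e f g h =
      v (c * f' + d * g' + e * h' - (c' * f + d' * g + e' * h))
        (f * c' + g * d' + h * e' - (f' * c + g' * d + h' * e))
        ((a - b) * c' + (b' - a') * c - 2 * (g * h' - h * g'))
        ((a - b) * d' + (b' - a') * d - 2 * (h * f' - f * h'))
        ((a - b) * e' + (b' - a') * e - 2 * (f * g' - g * f'))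
        ((a' - b') * f + (b - a) * f' + 2 * (d * e' - e * d'))
        ((a' - b') * g + (b - a) * g' + 2 * (e * c' - c * e'))
        ((a' - b') * h + (b - a) * h' + 2 * (c * d' - d * c')) := oct_ext fun i => by
  fin_cases i <;> simp [mul0, mul1, mul2, mul3, mul4, mul5, mul6, mul7, sub_ap, v0, v1, v2, v3, v4,
    v5, v6, v7] <;> ring

lemma smul_v (r a b c d e f g h : K) : r • v a b c d e f g h =
    v (r * a) (r * b) (r * c) (r * d) (r * e) (r * f) (r * g) (r * h) := oct_ext fun i => by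
  fin_cases i <;> simp [smul_ap, v0, v1, v2, v3, v4, v5, v6, v7]

lemma v_inj {a b c d e f g h a' b' c' d' e' f' g' h' : K}
    (H : v a b c d e f g h = v a' b' c' d' e' f' g' h') :
    a = a' ∧ b = b' ∧ c = c' ∧ d = d' ∧ e = e' ∧ f = f' ∧ g = g' ∧ h = h' :=
  ⟨congrFun H 0, congrFun H 1, congrFun H 2, congrFun H 3, congrFun H 4, congrFun H 5,
    congrFun H 6, congrFun H 7⟩

lemma im_v {a b c d e f g h : K} (hab : a + b = 0) : Im (v a b c d e f g h) := hab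

lemma two_zero (h2 : (2 : K) ≠ 0) {x : K} (h : 2 * x = 0) : x = 0 := (mul_eq_zero.mp h).resolve_left h2

/-- images of the basis elements of the first kind -/
lemma imgA (h2 : (2 : K) ≠ 0) (z : Oct K)
    (h : (2 : K) • z = v 1 (-1) 0 0 0 0 0 0 * z - z * v 1 (-1) 0 0 0 0 0 0) :
    z = v 0 0 (z 2) (z 3) (z 4) 0 0 0 := by
  have h' : (2 : K) • v (z 0) (z 1) (z 2) (z 3) (z 4) (z 5) (z 6) (z 7) =
      v 1 (-1) 0 0 0 0 0 0 * v (z 0) (z 1) (z 2) (z 3) (z 4) (z 5) (z 6) (z 7) -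
        v (z 0) (z 1) (z 2) (z 3) (z 4) (z 5) (z 6) (z 7) * v 1 (-1) 0 0 0 0 0 0 := by
    rw [← v_eta]
    exact h
  rw [com_v, smul_v] at h'
  obtain ⟨e0, e1, -, -, -, e5, e6, e7⟩ := v_inj h'
  have g0 : z 0 = 0 := two_zero h2 (by linear_combination e0)
  have g1 : z 1 = 0 := two_zero h2 (by linear_combination e1)
  have g5 : z 5 = 0 := two_zero h2 (two_zero h2 (by linear_combination e5))
  have g6 : z 6 = 0 := two_zero h2 (two_zero h2 (by linear_combination e6))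
  have g7 : z 7 = 0 := two_zero h2 (two_zero h2 (by linear_combination e7))
  conv_lhs => rw [v_eta z]
  rw [g0, g1, g5, g6, g7]

/-- images of the basis elements of the second kind -/
lemma imgB (h2 : (2 : K) ≠ 0) (z : Oct K)
    (h : (-2 : K) • z = v 1 (-1) 0 0 0 0 0 0 * z - z * v 1 (-1) 0 0 0 0 0 0) :
    z = v 0 0 0 0 0 (z 5) (z 6) (z 7) := by
  have h' : (-2 : K) • v (z 0) (z 1) (z 2) (z 3) (z 4) (z 5) (z 6) (z 7) =
      v 1 (-1) 0 0 0 0 0 0 * v (z 0) (z 1) (z 2) (z 3) (z 4) (z 5) (z 6) (z 7) -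
        v (z 0) (z 1) (z 2) (z 3) (z 4) (z 5) (z 6) (z 7) * v 1 (-1) 0 0 0 0 0 0 := by
    rw [← v_eta]
    exact h
  rw [com_v, smul_v] at h'
  obtain ⟨e0, e1, e2, e3, e4, -, -, -⟩ := v_inj h'
  have g0 : z 0 = 0 := two_zero h2 (by linear_combination -e0)
  have g1 : z 1 = 0 := two_zero h2 (by linear_combination -e1)
  have g2 : z 2 = 0 := two_zero h2 (two_zero h2 (by linear_combination -e2))
  have g3 : z 3 = 0 := two_zero h2 (two_zero h2 (by linear_combination -e3))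
  have g4 : z 4 = 0 := two_zero h2 (two_zero h2 (by linear_combination -e4))
  conv_lhs => rw [v_eta z]
  rw [g0, g1, g2, g3, g4]

theorem t : S_SCH := by
  intro K _ h2 T hIm hT

  have hh : Im (v (1 : K) (-1) 0 0 0 0 0 0) := im_v (by ring)
  have h00 : ∀ c d e f g h : K, Im (v (0 : K) 0 c d e f g h) := fun c d e f g h => im_v (by ring)
  -- first kind
  have kA : ∀ c d e : K, ∃ c' d' e' : K, T (v 0 0 c d e 0 0 0) = v 0 0 c' d' e' 0 0 0 := by
    intro c d e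
    have h1 := hT _ _ hh (h00 c d e 0 0 0)
    have h3 : v 1 (-1) 0 0 0 0 0 0 * v 0 0 c d e 0 0 0 - v 0 0 c d e 0 0 0 * v 1 (-1) 0 0 0 0 0 0 =
        (2 : K) • v 0 0 c d e 0 0 0 := by
      rw [com_v, smul_v]
      congr 1 <;> ring
    rw [h3, map_smul] at h1
    exact ⟨_, _, _, imgA h2 _ h1⟩
  have kB : ∀ f g h : K, ∃ f' g' h' : K, T (v 0 0 0 0 0 f g h) = v 0 0 0 0 0 f' g' h' := by
    intro f g h
    have h1 := hT _ _ hh (h00 0 0 0 f g h)
    have h3 : v 1 (-1) 0 0 0 0 0 0 * v 0 0 0 0 0 f g h - v 0 0 0 0 0 f g h * v 1 (-1) 0 0 0 0 0 0 =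
        (-2 : K) • v 0 0 0 0 0 f g h := by
      rw [com_v, smul_v]
      congr 1 <;> ring
    rw [h3, map_smul] at h1
    exact ⟨_, _, _, imgB h2 _ h1⟩
  obtain ⟨a2, b2, c2, E2⟩ := kA 1 0 0
  obtain ⟨a3, b3, c3, E3⟩ := kA 0 1 0
  obtain ⟨a4, b4, c4, E4⟩ := kA 0 0 1
  obtain ⟨a5, b5, c5, E5⟩ := kB 1 0 0
  obtain ⟨a6, b6, c6, E6⟩ := kB 0 1 0
  obtain ⟨a7, b7, c7, E7⟩ := kB 0 0 1
  obtain ⟨u0, u1, u2, u3, u4, u5, u6, u7, Eh⟩ : ∃ u0 u1 u2 u3 u4 u5 u6 u7 : K,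
      T (v 1 (-1) 0 0 0 0 0 0) = v u0 u1 u2 u3 u4 u5 u6 u7 := ⟨_, _, _, _, _, _, _, _, v_eta _⟩
  -- the general relation for two elements with known images
  have R : ∀ x y Tx' Ty w : Oct K, Im x → Im y → T y = Ty → x * y - y * x = w →
      T w = x * Ty - Ty * x := by
    intro x y _ Ty w hx hy h3 h4
    rw [← h4, ← h3]
    exact hT x y hx hy
  -- diagonal relations
  have T0 : T (v 0 0 0 0 0 0 0 0) = v 0 0 0 0 0 0 0 0 := by
    have : (v 0 0 0 0 0 0 0 0 : Oct K) = 0 := oct_ext fun i => by fin_cases i <;> rfl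
    rw [this, map_zero]
  have d2 := R _ _ 0 _ (v 0 0 0 0 0 0 0 0) (h00 1 0 0 0 0 0) (h00 1 0 0 0 0 0) E2
    (by rw [com_v]; congr 1 <;> ring)
  have d3 := R _ _ 0 _ (v 0 0 0 0 0 0 0 0) (h00 0 1 0 0 0 0) (h00 0 1 0 0 0 0) E3
    (by rw [com_v]; congr 1 <;> ring)
  have d4 := R _ _ 0 _ (v 0 0 0 0 0 0 0 0) (h00 0 0 1 0 0 0) (h00 0 0 1 0 0 0) E4
    (by rw [com_v]; congr 1 <;> ring)
  have d5 := R _ _ 0 _ (v 0 0 0 0 0 0 0 0) (h00 0 0 0 1 0 0) (h00 0 0 0 1 0 0) E5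
    (by rw [com_v]; congr 1 <;> ring)
  have d6 := R _ _ 0 _ (v 0 0 0 0 0 0 0 0) (h00 0 0 0 0 1 0) (h00 0 0 0 0 1 0) E6
    (by rw [com_v]; congr 1 <;> ring)
  have d7 := R _ _ 0 _ (v 0 0 0 0 0 0 0 0) (h00 0 0 0 0 0 1) (h00 0 0 0 0 0 1) E7
    (by rw [com_v]; congr 1 <;> ring)
  rw [T0, com_v] at d2 d3 d4 d5 d6 d7
  obtain ⟨-, -, -, -, -, p25, p26, p27⟩ := v_inj d2
  obtain ⟨-, -, -, -, -, p35, p36, p37⟩ := v_inj d3
  obtain ⟨-, -, -, -, -, p45, p46, p47⟩ := v_inj d4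
  obtain ⟨-, -, p52, p53, p54, -, -, -⟩ := v_inj d5
  obtain ⟨-, -, p62, p63, p64, -, -, -⟩ := v_inj d6
  obtain ⟨-, -, p72, p73, p74, -, -, -⟩ := v_inj d7
  have q2b : b2 = 0 := two_zero h2 (by linear_combination -p27)
  have q2c : c2 = 0 := two_zero h2 (by linear_combination p26)
  have q3a : a3 = 0 := two_zero h2 (by linear_combination p37)
  have q3c : c3 = 0 := two_zero h2 (by linear_combination -p35)
  have q4a : a4 = 0 := two_zero h2 (by linear_combination -p46)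
  have q4b : b4 = 0 := two_zero h2 (by linear_combination p45)
  have q5b : b5 = 0 := two_zero h2 (by linear_combination p54)
  have q5c : c5 = 0 := two_zero h2 (by linear_combination -p53)
  have q6a : a6 = 0 := two_zero h2 (by linear_combination -p64)
  have q6c : c6 = 0 := two_zero h2 (by linear_combination p62)
  have q7a : a7 = 0 := two_zero h2 (by linear_combination p73)
  have q7b : b7 = 0 := two_zero h2 (by linear_combination -p72)
  subst q2b q2c q3a q3c q4a q4b q5b q5c q6a q6c q7a q7b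
  -- `[e2, e5] = h`, `[e5, e2] = -h`
  have s1 := R _ _ 0 _ (v 1 (-1) 0 0 0 0 0 0) (h00 1 0 0 0 0 0) (h00 0 0 0 1 0 0) E5
    (by rw [com_v]; congr 1 <;> ring)
  rw [Eh, com_v] at s1
  obtain ⟨w0, w1, w2, w3, w4, w5, w6, w7⟩ := v_inj s1
  have s2 := R _ _ 0 _ ((-1 : K) • v 1 (-1) 0 0 0 0 0 0) (h00 0 0 0 1 0 0) (h00 1 0 0 0 0 0) E2
    (by rw [com_v, smul_v]; congr 1 <;> ring)
  rw [map_smul, Eh, com_v, smul_v] at s2
  obtain ⟨x0, -, -, -, -, -, -, -⟩ := v_inj s2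
  -- `[e2, e3] = 2 e7`, `[e3, e2] = -2 e7`
  have s3 := R _ _ 0 _ ((2 : K) • v 0 0 0 0 0 0 0 1) (h00 1 0 0 0 0 0) (h00 0 1 0 0 0 0) E3
    (by rw [com_v, smul_v]; congr 1 <;> ring)
  rw [map_smul, E7, com_v, smul_v] at s3
  obtain ⟨-, -, -, -, -, -, -, y3⟩ := v_inj s3
  have s4 := R _ _ 0 _ ((-2 : K) • v 0 0 0 0 0 0 0 1) (h00 0 1 0 0 0 0) (h00 1 0 0 0 0 0) E2
    (by rw [com_v, smul_v]; congr 1 <;> ring)
  rw [map_smul, E7, com_v, smul_v] at s4
  obtain ⟨-, -, -, -, -, -, -, y4⟩ := v_inj s4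
  -- `[e2, e4] = -2 e6`, `[e4, e2] = 2 e6`
  have s5 := R _ _ 0 _ ((-2 : K) • v 0 0 0 0 0 0 1 0) (h00 1 0 0 0 0 0) (h00 0 0 1 0 0 0) E4
    (by rw [com_v, smul_v]; congr 1 <;> ring)
  rw [map_smul, E6, com_v, smul_v] at s5
  obtain ⟨-, -, -, -, -, -, y5, -⟩ := v_inj s5
  have s6 := R _ _ 0 _ ((2 : K) • v 0 0 0 0 0 0 1 0) (h00 0 0 1 0 0 0) (h00 1 0 0 0 0 0) E2
    (by rw [com_v, smul_v]; congr 1 <;> ring)
  rw [map_smul, E6, com_v, smul_v] at s6
  obtain ⟨-, -, -, -, -, -, y6, -⟩ := v_inj s6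
  have r5 : a5 = a2 := by linear_combination -w0 - x0
  have r7 : c7 = a2 := mul_left_cancel₀ h2 (by linear_combination -y4)
  have r3 : b3 = a2 := mul_left_cancel₀ h2 (by linear_combination -y3 - y4)
  have r6 : b6 = a2 := mul_left_cancel₀ h2 (by linear_combination y6)
  have r4 : c4 = a2 := mul_left_cancel₀ h2 (by linear_combination y5 + y6)
  refine ⟨a2, fun x hx => ?_⟩
  have hx1 : x 1 = -(x 0) := by
    have : x 0 + x 1 = 0 := hx
    linear_combination this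
  have hdec : x = x 0 • v 1 (-1) 0 0 0 0 0 0 + x 2 • v 0 0 1 0 0 0 0 0 + x 3 • v 0 0 0 1 0 0 0 0 +
      x 4 • v 0 0 0 0 1 0 0 0 + x 5 • v 0 0 0 0 0 1 0 0 + x 6 • v 0 0 0 0 0 0 1 0 +
      x 7 • v 0 0 0 0 0 0 0 1 := oct_ext fun i => by
    fin_cases i <;> simp [add_ap, smul_ap, v0, v1, v2, v3, v4, v5, v6, v7, hx1]
  have hTx : T x = x 0 • T (v 1 (-1) 0 0 0 0 0 0) + x 2 • T (v 0 0 1 0 0 0 0 0) +
      x 3 • T (v 0 0 0 1 0 0 0 0) + x 4 • T (v 0 0 0 0 1 0 0 0) + x 5 • T (v 0 0 0 0 0 1 0 0) +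
      x 6 • T (v 0 0 0 0 0 0 1 0) + x 7 • T (v 0 0 0 0 0 0 0 1) := by
    conv_lhs => rw [hdec]
    simp only [map_add, map_smul]
  rw [hTx, E2, E3, E4, E5, E6, E7, Eh]
  apply oct_ext
  intro i
  fin_cases i <;> simp [add_ap, smul_ap, v0, v1, v2, v3, v4, v5, v6, v7, hx1] <;>
    first
      | linear_combination (x 0) * w0 + (x 0) * r5
      | linear_combination (x 0) * w1 - (x 0) * r5
      | linear_combination (x 0) * w2
      | linear_combination (x 0) * w3 + (x 3) * r3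
      | linear_combination (x 0) * w4 + (x 4) * r4
      | linear_combination (x 0) * w5 + (x 5) * r5
      | linear_combination (x 0) * w6 + (x 6) * r6
      | linear_combination (x 0) * w7 + (x 7) * r7

end Pool.Agent.Q160.HO.SCH
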