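import Pool.Agent.Q19.HO.Stm
import Pool.Agent.Q160.HO.SCH

/-!
Job HO-CENM: the brackets of the skew-Hermitian matrices commuting with all real skew matrices.
-/

set_option autoImplicit false

namespace Pool.Agent.Q160.HO.CENM

open Pool.Agent.Q19.HO Matrix Pool.Agent.Q160.HO.SCH

variable {K : Type} [Field K] {n : ℕ}

lemma re_mul_ap (a : Matrix (Fin n) (Fin n) K) (X : Mat n K) (i j : Fin n) :
    (re a * X) i j = ∑ k, a i k • X k j := by
  rw [Matrix.mul_apply]
  refine Finset.sum_congr rfl fun k _ => ?_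
  show (a i k • (1 : Oct K)) * X k j = _
  rw [Pool.Agent.Q19.HO.smul_mul', one_mul]

lemma mul_re_ap (a : Matrix (Fin n) (Fin n) K) (X : Mat n K) (i j : Fin n) :
    (X * re a) i j = ∑ k, a k j • X i k := by
  rw [Matrix.mul_apply]
  refine Finset.sum_congr rfl fun k _ => ?_
  show X i k * (a k j • (1 : Oct K)) = _
  rw [mul_smul', mul_one]

lemma ten_ap (s : Matrix (Fin n) (Fin n) K) (o : Oct K) (i j : Fin n) : ten s o i j = s i j • o := rfl

/-- a real matrix commutes with a scalar octonion matrix -/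
lemma br_re_ten (a : Matrix (Fin n) (Fin n) K) (o : Oct K) : br (re a) (ten 1 o) = 0 := by
  unfold br
  rw [sub_eq_zero]
  funext i j
  rw [re_mul_ap, mul_re_ap]
  simp only [ten_ap, Matrix.one_apply, ite_smul, one_smul, zero_smul, smul_ite, smul_zero,
    Finset.sum_ite_eq', Finset.sum_ite_eq, Finset.mem_univ, if_true]

lemma br_anti (X Y : Mat n K) : br X Y = - br Y X := by
  unfold br
  rw [neg_sub]

lemma br_add_left (X Y Z : Mat n K) : br (X + Y) Z = br X Z + br Y Z := by
  unfold br
  rw [Matrix.add_mul, Matrix.mul_add]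
  abel

lemma br_add_right (X Y Z : Mat n K) : br X (Y + Z) = br X Y + br X Z := by
  unfold br
  rw [Matrix.add_mul, Matrix.mul_add]
  abel

lemma br_ten (o o' : Oct K) : br (ten (1 : Matrix (Fin n) (Fin n) K) o) (ten 1 o') =
    ten 1 (o * o' - o' * o) := by
  unfold br
  funext i j
  rw [Matrix.sub_apply, Matrix.mul_apply, Matrix.mul_apply]
  simp only [ten_ap, Matrix.one_apply, ite_smul, one_smul, zero_smul, ite_mul, zero_mul,
    mul_ite, mul_zero]
  split_ifs with h <;> simp [h]

lemma im_com (o o' : Oct K) : Im (o * o' - o' * o) := by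
  show (o * o' - o' * o) 0 + (o * o' - o' * o) 1 = 0
  simp only [sub_ap, mul0, mul1]
  ring

lemma star_of_im {o : Oct K} (h : Im o) : star o = -o := by
  have h1 : o 0 + o 1 = 0 := h
  have h2 : o 1 = -o 0 := by linear_combination h1
  apply oct_ext
  intro i
  fin_cases i <;> simp [star0, star1, star2, star3, star4, star5, star6, star7, neg_ap, h2]

lemma ten_mem {o : Oct K} (h : Im o) : ten (1 : Matrix (Fin n) (Fin n) K) o ∈ SymM n K := by
  intro i j
  rw [ten_ap, ten_ap, star_smul', star_of_im h, smul_neg]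
  congr 2
  rw [Matrix.one_apply, Matrix.one_apply]
  simp only [eq_comm]

lemma real_of_star (h2 : (2 : K) ≠ 0) {x : Oct K} (h : star x = x) : x = x 0 • (1 : Oct K) := by
  have e0 : x 1 = x 0 := congrFun h 0
  have e2 : -x 2 = x 2 := congrFun h 2
  have e3 : -x 3 = x 3 := congrFun h 3
  have e4 : -x 4 = x 4 := congrFun h 4
  have e5 : -x 5 = x 5 := congrFun h 5
  have e6 : -x 6 = x 6 := congrFun h 6
  have e7 : -x 7 = x 7 := congrFun h 7
  have g2 : x 2 = 0 := two_zero h2 (by linear_combination -e2)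
  have g3 : x 3 = 0 := two_zero h2 (by linear_combination -e3)
  have g4 : x 4 = 0 := two_zero h2 (by linear_combination -e4)
  have g5 : x 5 = 0 := two_zero h2 (by linear_combination -e5)
  have g6 : x 6 = 0 := two_zero h2 (by linear_combination -e6)
  have g7 : x 7 = 0 := two_zero h2 (by linear_combination -e7)
  apply oct_ext
  intro i
  fin_cases i <;> simp [smul_ap, one0, one1, one2, one3, one4, one5, one6, one7, e0, g2, g3, g4,
    g5, g6, g7]

/-- the elementary relation -/
lemma rel {X : Mat n K} (hX : ∀ a : Matrix (Fin n) (Fin n) K, aᵀ = -a → br (re a) X = 0)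
    {p q : Fin n} (hpq : p ≠ q) (i j : Fin n) :
    (if i = p then X q j else 0) - (if i = q then X p j else 0) =
      (if j = q then X i p else 0) - (if j = p then X i q else 0) := by
  set a : Matrix (Fin n) (Fin n) K := fun i k =>
    (if i = p then (if k = q then 1 else 0) else 0) - (if i = q then (if k = p then 1 else 0) else 0) with ha
  have hskew : aᵀ = -a := by
    funext i k
    simp only [Matrix.transpose_apply, Matrix.neg_apply, ha]
    by_cases h1 : i = p <;> by_cases h2 : k = q <;> by_cases h3 : i = q <;> by_cases h4 : k = p <;>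
      simp [h1, h2, h3, h4, hpq, hpq.symm]
  have h := hX a hskew
  unfold br at h
  rw [sub_eq_zero] at h
  have h1 := congrFun (congrFun h i) j
  rw [re_mul_ap, mul_re_ap] at h1
  have hl : ∑ k, a i k • X k j = (if i = p then X q j else 0) - (if i = q then X p j else 0) := by
    simp only [ha, sub_smul, ite_smul, one_smul, zero_smul, Finset.sum_sub_distrib]
    congr 1
    · split_ifs <;> simp
    · split_ifs <;> simp
  have hr : ∑ k, a k j • X i k = (if j = q then X i p else 0) - (if j = p then X i q else 0) := by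
    simp only [ha, sub_smul, ite_smul, one_smul, zero_smul, Finset.sum_sub_distrib]
    congr 1
    · simp
    · simp
  rw [hl, hr] at h1
  exact h1

/-- the structure of the elements commuting with the real skew matrices -/
lemma structure_of (h2 : (2 : K) ≠ 0) (hn : 1 ≤ n) {X : Mat n K} (hS : X ∈ SymM n K)
    (hX : ∀ a : Matrix (Fin n) (Fin n) K, aᵀ = -a → br (re a) X = 0) :
    ∃ (b : Matrix (Fin n) (Fin n) K) (o : Oct K), bᵀ = -b ∧ Im o ∧ X = re b + ten 1 o := by
  have hdiag : ∀ p q : Fin n, X p p = X q q := by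
    intro p q
    by_cases hpq : p = q
    · rw [hpq]
    · have := rel hX hpq p q
      rw [if_pos rfl, if_neg hpq, if_pos rfl, if_neg (Ne.symm hpq), sub_zero, sub_zero] at this
      exact this.symm
  have hoff : ∀ p q : Fin n, p ≠ q → X q p = -X p q := by
    intro p q hpq
    have := rel hX hpq p p
    rw [if_pos rfl, if_neg hpq, if_pos rfl, sub_zero, zero_sub] at this
    exact this
  have hreal : ∀ p q : Fin n, p ≠ q → X p q = (X p q) 0 • (1 : Oct K) := by
    intro p q hpq
    apply real_of_star h2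
    have h1 := hS p q
    rw [hoff p q hpq, star_neg] at h1
    exact neg_injective h1
  let z : Fin n := ⟨0, hn⟩
  refine ⟨fun i j => if i = j then 0 else (X i j) 0, X z z, ?_, ?_, ?_⟩
  · funext i j
    simp only [Matrix.transpose_apply, Matrix.neg_apply]
    by_cases hij : i = j
    · subst hij
      simp
    · rw [if_neg (Ne.symm hij), if_neg hij, hoff i j hij]
      rfl
  · have h1 := congrFun (hS z z) 0
    have h3 : (X z z) 1 = -(X z z) 0 := h1
    show (X z z) 0 + (X z z) 1 = 0
    rw [h3]
    ring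
  · funext i j
    rw [Matrix.add_apply, ten_ap]
    show X i j = (if i = j then 0 else (X i j) 0) • (1 : Oct K) + _
    by_cases hij : i = j
    · subst hij
      rw [if_pos rfl, zero_smul, zero_add, Matrix.one_apply_eq, one_smul]
      exact hdiag i z
    · rw [if_neg hij, Matrix.one_apply_ne hij, zero_smul, add_zero]
      exact hreal i j hij

theorem t : S_CENM := by
  intro K _ n h2 hn Z
  constructor
  · intro hZ
    induction hZ using Submodule.span_induction with
    | mem W hW =>
      obtain ⟨X, hXS, Y, hYS, hX, hY, rfl⟩ := hW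
      obtain ⟨b, o, hb, ho, hXe⟩ := structure_of h2 hn hXS hX
      obtain ⟨b', o', hb', ho', hYe⟩ := structure_of h2 hn hYS hY
      refine ⟨o * o' - o' * o, im_com o o', ?_⟩
      rw [← br_ten]
      conv_lhs => rw [hXe]
      rw [br_add_left, hY b hb, zero_add, hYe, br_add_right, br_anti (ten 1 o) (re b'), br_re_ten,
        neg_zero, zero_add]
    | zero =>
      refine ⟨0, by show (0 : K) + 0 = 0; ring, ?_⟩
      funext i j
      rw [ten_ap, smul_zero]
      rfl
    | add W W' _ _ h h' =>
      obtain ⟨o, ho, rfl⟩ := h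
      obtain ⟨o', ho', rfl⟩ := h'
      refine ⟨o + o', ?_, ?_⟩
      · have e1 : o 0 + o 1 = 0 := ho
        have e2 : o' 0 + o' 1 = 0 := ho'
        show (o + o') 0 + (o + o') 1 = 0
        rw [add_ap, add_ap]
        linear_combination e1 + e2
      · funext i j
        rw [Matrix.add_apply, ten_ap, ten_ap, ten_ap, smul_add]
    | smul r W _ h =>
      obtain ⟨o, ho, rfl⟩ := h
      refine ⟨r • o, ?_, ?_⟩
      · have e1 : o 0 + o 1 = 0 := ho
        show (r • o) 0 + (r • o) 1 = 0
        rw [smul_ap, smul_ap]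
        linear_combination r * e1
      · funext i j
        rw [Matrix.smul_apply, ten_ap, ten_ap, smul_comm]
  · rintro ⟨o, ho, rfl⟩
    have hgen : ∀ u u' : Oct K, Im u → Im u' → ten (1 : Matrix (Fin n) (Fin n) K) (u * u' - u' * u) ∈
        Submodule.span K {W : Mat n K | ∃ X ∈ SymM n K, ∃ Y ∈ SymM n K,
          (∀ a : Matrix (Fin n) (Fin n) K, aᵀ = -a → br (re a) X = 0) ∧
          (∀ a : Matrix (Fin n) (Fin n) K, aᵀ = -a → br (re a) Y = 0) ∧ br X Y = W} := by
      intro u u' hu hu'
      apply Submodule.subset_span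
      exact ⟨_, ten_mem hu, _, ten_mem hu', fun a _ => br_re_ten a u, fun a _ => br_re_ten a u',
        br_ten u u'⟩
    have hh : Im (v (1 : K) (-1) 0 0 0 0 0 0) := im_v (by ring)
    have h00 : ∀ c d e f g h : K, Im (v (0 : K) 0 c d e f g h) := fun c d e f g h => im_v (by ring)
    have ho1 : o 1 = -(o 0) := by
      have : o 0 + o 1 = 0 := ho
      linear_combination this
    have m0 := hgen _ _ (h00 1 0 0 0 0 0) (h00 0 0 0 1 0 0)
    have m1 := hgen _ _ hh (h00 (o 2 / 2) (o 3 / 2) (o 4 / 2) (-(o 5 / 2)) (-(o 6 / 2)) (-(o 7 / 2)))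
    have hdec : ten (1 : Matrix (Fin n) (Fin n) K) o = o 0 • ten (1 : Matrix (Fin n) (Fin n) K)
        (v 0 0 1 0 0 0 0 0 * v 0 0 0 0 0 1 0 0 - v 0 0 0 0 0 1 0 0 * v 0 0 1 0 0 0 0 0) +
        ten (1 : Matrix (Fin n) (Fin n) K)
          (v 1 (-1) 0 0 0 0 0 0 * v 0 0 (o 2 / 2) (o 3 / 2) (o 4 / 2) (-(o 5 / 2)) (-(o 6 / 2)) (-(o 7 / 2)) -
            v 0 0 (o 2 / 2) (o 3 / 2) (o 4 / 2) (-(o 5 / 2)) (-(o 6 / 2)) (-(o 7 / 2)) *
              v 1 (-1) 0 0 0 0 0 0) := by
      funext i j
      rw [Matrix.add_apply, Matrix.smul_apply, ten_ap, ten_ap, ten_ap, smul_comm (o 0), ← smul_add]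
      congr 1
      rw [com_v, com_v]
      apply oct_ext
      intro l
      fin_cases l <;> simp [add_ap, smul_ap, v0, v1, v2, v3, v4, v5, v6, v7, ho1] <;> field_simp <;> ring
    rw [hdec]
    exact Submodule.add_mem _ (Submodule.smul_mem _ _ m0) m1

end Pool.Agent.Q160.HO.CENM
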